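import Pool.Agent.helper86.CM.Defs2

/-! # CM project (MP_07c750_an), common lemmas for R1 and R2 -/

open scoped BigOperators

namespace Pool.Agent.helper86.CM

noncomputable section

section

variable {L : Type} [AddCommGroup L] [Module.Finite ℤ L]
  {H : Type} [NormedAddCommGroup H] [InnerProductSpace ℂ H]

/-- the facts given by `SP` -/
structure R0_SP (M : ℕ) [NeZero M] (ρ : L → (H →ₗ[ℂ] H)) (P : Chi M L → (H →ₗ[ℂ] H)) : Prop where
  sum : ∀ v, ∑ χ, P χ v = v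
  orth : ∀ χ χ', χ ≠ χ' → ∀ v w, inner ℂ (P χ v) (P χ' w) = 0
  eig : ∀ χ a v, ρ a (P χ v) = χ.1 a • P χ v
  fix : ∀ (χ : Chi M L) v, (∀ a, ρ a v = χ.1 a • v) → P χ v = v
  nrm : ∀ v, ∑ χ, ‖P χ v‖ ^ 2 = ‖v‖ ^ 2

variable {M : ℕ} [NeZero M] {ρ : L → (H →ₗ[ℂ] H)} {P : Chi M L → (H →ₗ[ℂ] H)}

theorem R0_kill (S : R0_SP M ρ P) (χ χ' : Chi M L) (h : χ ≠ χ') (v : H)
    (hv : ∀ a, ρ a v = χ.1 a • v) : P χ' v = 0 := by
  classical
  have h1 := S.nrm v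
  have h2 := S.fix χ v hv
  rw [← Finset.add_sum_erase _ _ (Finset.mem_univ χ), h2] at h1
  have h3 : ∑ x ∈ Finset.univ.erase χ, ‖P x v‖ ^ 2 = 0 := by linarith
  rw [Finset.sum_eq_zero_iff_of_nonneg (fun x _ => by positivity)] at h3
  have h4 := h3 χ' (Finset.mem_erase.2 ⟨Ne.symm h, Finset.mem_univ _⟩)
  have h5 : ‖P χ' v‖ = 0 := by
    rwa [pow_eq_zero_iff (by norm_num)] at h4
  exact norm_eq_zero.1 h5

theorem R0_kill' (S : R0_SP M ρ P) (χ χ' : Chi M L) (h : χ ≠ χ') (v : H) :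
    P χ' (P χ v) = 0 := R0_kill S χ χ' h _ (fun a => S.eig χ a v)

theorem R0_idem (S : R0_SP M ρ P) (χ : Chi M L) (v : H) :
    P χ (P χ v) = P χ v := S.fix χ _ (fun a => S.eig χ a v)

theorem R0_inner (S : R0_SP M ρ P) (χ : Chi M L) (v w : H) :
    inner ℂ v (P χ w) = inner ℂ (P χ v) (P χ w) := by
  classical
  conv_lhs => rw [← S.sum v]
  rw [sum_inner, ← Finset.add_sum_erase _ _ (Finset.mem_univ χ),
    Finset.sum_eq_zero, add_zero]
  intro x hx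
  exact S.orth _ _ (Finset.ne_of_mem_erase hx) _ _

theorem R0_inner_self (S : R0_SP M ρ P) (χ : Chi M L) (v : H) :
    inner ℂ v (P χ v) = ((‖P χ v‖ ^ 2 : ℝ) : ℂ) := by
  rw [R0_inner S, inner_self_eq_norm_sq_to_K]
  norm_cast

theorem R0_equiv (S : R0_SP M ρ P) (V : H →ₗᵢ[ℂ] H) (B : L → L) (hB : Function.Surjective B)
    (hV : ∀ a v, ρ a (V v) = V (ρ (B a) v)) (χ χ' : Chi M L)
    (h : ∀ z, χ'.1 z = χ.1 (B z)) (v : H)
    (hBχ : ∀ χ₁ : Chi M L, ∃ χ₂ : Chi M L, ∀ z, χ₂.1 z = χ₁.1 (B z)) :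
    P χ' (V v) = V (P χ v) := by
  classical
  conv_lhs => rw [← S.sum v]
  rw [map_sum, map_sum, ← Finset.add_sum_erase _ _ (Finset.mem_univ χ), Finset.sum_eq_zero,
    add_zero]
  · apply S.fix
    intro a
    rw [hV, S.eig, map_smul, h]
  · intro x hx
    obtain ⟨x', hx'⟩ := hBχ x
    apply R0_kill S x' χ'
    · intro h1
      apply Finset.ne_of_mem_erase hx
      apply Subtype.ext
      apply DFunLike.ext
      intro z
      obtain ⟨z', rfl⟩ := hB z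
      rw [← hx', ← h, h1]
    · intro a
      rw [hV, S.eig, map_smul, hx']

/-- composition of a character with `B` -/
def R0_comp (M : ℕ) (B : L →ₗ[ℤ] L) (η : Chi M L) : Chi M L :=
  ⟨{ toFun := fun z => η.1 (B z)
     map_zero_eq_one' := by rw [map_zero, AddChar.map_zero_eq_one]
     map_add_eq_mul' := fun a b => by rw [map_add, AddChar.map_add_eq_mul] }, by
    intro z
    show η.1 (B (M • z)) = 1
    rw [map_nsmul]
    exact η.2 _⟩

theorem R0_inv (S : R0_SP M ρ P) (V : H ≃ₗᵢ[ℂ] H) (B : L ≃ₗ[ℤ] L)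
    (hV : ∀ a v, ρ a (V v) = V (ρ (B a) v)) (χ χ' : Chi M L)
    (h : ∀ z, χ'.1 z = χ.1 (B z)) (ψ : H) (c : ℂ) (hψ : ‖ψ‖ = 1) (hc : V ψ = c • ψ) :
    ‖P χ' ψ‖ = ‖P χ ψ‖ := by
  have h1 : ‖c‖ = 1 := by
    have h2 : ‖V ψ‖ = ‖c • ψ‖ := by rw [hc]
    rw [V.norm_map, norm_smul, hψ, mul_one] at h2
    exact h2.symm
  have h2 := R0_equiv S V.toLinearIsometry B B.surjective hV χ χ' h ψ
    (fun χ₁ => ⟨R0_comp M B χ₁, fun z => rfl⟩)
  have h3 : P χ' (V ψ) = V (P χ ψ) := h2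
  rw [hc, map_smul] at h3
  have h4 : ‖c • P χ' ψ‖ = ‖V (P χ ψ)‖ := by rw [h3]
  rwa [norm_smul, h1, one_mul, V.norm_map] at h4

end

end

end Pool.Agent.helper86.CM
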