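import Pool.Agent.helper92.CM.R1a
import Pool.Agent.helper92.CM.R0

/-! # CM project (MP_07c750_an), module R1 -/

open scoped BigOperators

namespace Pool.Agent.helper86.CM

noncomputable section

variable {L : Type} [AddCommGroup L] [Module.Free ℤ L] [Module.Finite ℤ L]

/-- the restriction of `B` to the orbit lattice -/
def R1_res (B : L ≃ₗ[ℤ] L) (n : L) : (Lam B n) ≃ₗ[ℤ] (Lam B n) where
  toFun z := ⟨B z.1, Lam_inv B n z.1 z.2⟩
  map_add' a b := Subtype.ext (by simp)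
  map_smul' a b := Subtype.ext (by simp)
  invFun z := ⟨B.symm z.1, sat_symm B (Lam B n) (Lam_sat B n) (Lam_inv B n) z.1 z.2⟩
  left_inv z := Subtype.ext (by simp)
  right_inv z := Subtype.ext (by simp)

theorem R1_res_apply (B : L ≃ₗ[ℤ] L) (n : L) (z : Lam B n) : (R1_res B n z : L) = B z := rfl

theorem R1_res_symm (B : L ≃ₗ[ℤ] L) (n : L) (z : Lam B n) :
    (((R1_res B n)⁻¹ : (Lam B n) ≃ₗ[ℤ] (Lam B n)) z : L) = (B⁻¹ : L ≃ₗ[ℤ] L) z := rfl

theorem R1_res_pow (B : L ≃ₗ[ℤ] L) (n : L) (t : ℕ) (z : Lam B n) :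
    (((R1_res B n) ^ t) z : L) = (B ^ t) z := by
  induction t generalizing z with
  | zero => simp
  | succ t ih =>
    rw [pow_succ, pow_succ, LinearEquiv.mul_apply, LinearEquiv.mul_apply, ih, R1_res_apply]

theorem R1_res_pow_inv (B : L ≃ₗ[ℤ] L) (n : L) (t : ℕ) (z : Lam B n) :
    ((((R1_res B n)⁻¹) ^ t) z : L) = ((B⁻¹) ^ t) z := by
  induction t generalizing z with
  | zero => simp
  | succ t ih =>
    rw [pow_succ, pow_succ, LinearEquiv.mul_apply, LinearEquiv.mul_apply, ih, R1_res_symm]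

theorem R1_res_zpow (B : L ≃ₗ[ℤ] L) (n : L) (t : ℤ) (z : Lam B n) :
    (((R1_res B n) ^ t) z : L) = (B ^ t) z := by
  obtain ⟨m, rfl | rfl⟩ := t.eq_nat_or_neg
  · rw [zpow_natCast, zpow_natCast, R1_res_pow]
  · rw [zpow_neg, zpow_neg, zpow_natCast, zpow_natCast, ← inv_pow, ← inv_pow, R1_res_pow_inv]

/-- the distinguished vector -/
def R1_vec (B : L ≃ₗ[ℤ] L) (n : L) : Lam B n := ⟨n, Lam_self B n⟩

theorem R1_top (B : L ≃ₗ[ℤ] L) (n : L) : Lam (R1_res B n) (R1_vec B n) = ⊤ := by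
  rw [eq_top_iff]
  rintro z -
  obtain ⟨a, ha, haz⟩ := z.2
  refine ⟨a, ha, ?_⟩
  have h1 : Submodule.map (Lam B n).subtype
      (Submodule.span ℤ (Set.range fun t : ℤ => ((R1_res B n) ^ t) (R1_vec B n))) =
      Submodule.span ℤ (Set.range fun t : ℤ => (B ^ t) n) := by
    rw [Submodule.map_span]
    congr 1
    rw [← Set.range_comp]
    congr 1
    funext t
    exact R1_res_zpow B n t (R1_vec B n)
  rw [← h1] at haz
  obtain ⟨y, hy, hyz⟩ := haz
  have h2 : y = a • z := Subtype.ext hyz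
  rw [← h2]
  exact hy

theorem R1_erg (B : L ≃ₗ[ℤ] L) (n : L) (hB : Erg B) : Erg (R1_res B n) := by
  intro m hm z hz
  apply Subtype.ext
  apply hB m hm
  have := congrArg Subtype.val hz
  rwa [R1_res_pow] at this

theorem R1_MPr (B : L ≃ₗ[ℤ] L) (n : L) (hB : MPr B) : MPr (R1_res B n) := by
  intro h hh M hM hMB z hz
  have h1 := hB h hh (M.map (Lam B n).subtype) (by
    intro a y ha hay
    obtain ⟨x, hx, hxy⟩ := hay
    have h2 : y ∈ Lam B n := by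
      apply Lam_sat B n a y ha
      rw [← hxy]
      exact x.2
    refine ⟨⟨y, h2⟩, ?_, rfl⟩
    apply hM a _ ha
    have h3 : a • (⟨y, h2⟩ : Lam B n) = x := Subtype.ext hxy.symm
    rw [h3]
    exact hx) (by
    rintro _ ⟨x, hx, rfl⟩
    refine ⟨((R1_res B n) ^ h) x, hMB x hx, ?_⟩
    exact R1_res_pow B n h x) z.1 ⟨z, hz, rfl⟩
  obtain ⟨x, hx, hxy⟩ := h1
  have h2 : x = R1_res B n z := Subtype.ext hxy
  rw [← h2]
  exact hx

theorem R1 (p : ℕ) [Fact p.Prime] (hp : p ≠ 2) (om : L →ₗ[ℤ] L →ₗ[ℤ] ℤ) (B : L ≃ₗ[ℤ] L)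
    (hB : Erg B) (hMP : MPr B) (n : L) (hiso : Iso om (Lam B n)) (δ : ℝ) (hδ : 0 < δ) :
    ∃ C₀ : ℕ, ∀ C, C₀ ≤ C → ∀ (k : ℕ) (H : Type) [NormedAddCommGroup H] [InnerProductSpace ℂ H]
      [FiniteDimensional ℂ H] (W : Weyl om H (p ^ k)) (V : H ≃ₗᵢ[ℂ] H) (ψ : H) (c : ℂ),
      (∀ m v, W.T m (V v) = V (W.T (B m) v)) → ‖ψ‖ = 1 → V ψ = c • ψ →
      ‖(inner ℂ ψ (W.T n ψ) : ℂ) -
        inner ℂ ψ (W.T n ((KK W (Lam B n) (2 * p ^ C)).starProjection ψ))‖ ≤ δ := by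
  classical
  obtain ⟨C₀, hC₀⟩ := R1a p hp (R1_res B n) (R1_erg B n hB) (R1_MPr B n hMP) (R1_vec B n)
    (R1_top B n) δ hδ
  refine ⟨C₀, fun C hC k H _ _ _ W V ψ c hV hψ hc => ?_⟩
  obtain ⟨P, h1, h2, h3, h4, h5⟩ := SP (L := Lam B n) (2 * p ^ k) H (fun z => W.T z.1)
    (fun v => W.zero v)
    (fun a b v => WB_add W a.1 b.1 (hiso _ a.2 _ b.2) v)
    (fun a v => W.norm _ v)
    (fun a v => W.per _ v)
  have S : R0_SP (2 * p ^ k) (fun z : Lam B n => W.T z.1) P := ⟨h1, h2, h3, h4, h5⟩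
  have hinv : ∀ η η' : Chi (2 * p ^ k) (Lam B n), (∀ z, η'.1 z = η.1 (R1_res B n z)) →
      ‖P η' ψ‖ ^ 2 = ‖P η ψ‖ ^ 2 := by
    intro η η' h
    rw [R0_inv S V (R1_res B n) (fun a v => hV _ _) η η' h ψ c hψ hc]
  have hmain := hC₀ C hC k (fun η => ‖P η ψ‖ ^ 2) (fun η => by positivity)
    (by rw [h5, hψ]; norm_num) hinv
  have hTn : ∀ η : Chi (2 * p ^ k) (Lam B n),
      (inner ℂ ψ (W.T n (P η ψ)) : ℂ) = ((‖P η ψ‖ ^ 2 : ℝ) : ℂ) * η.1 (R1_vec B n) := by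
    intro η
    have h6 : W.T n (P η ψ) = η.1 (R1_vec B n) • P η ψ := h3 η (R1_vec B n) ψ
    rw [h6, inner_smul_right, R0_inner_self S, mul_comm]
  have hproj : (KK W (Lam B n) (2 * p ^ C)).starProjection ψ =
      ∑ η : Chi (2 * p ^ k) (Lam B n) with (∀ z, η.1 ((2 * p ^ C) • z) = 1), P η ψ := by
    symm
    apply Eq.symm
    apply Submodule.eq_starProjection_of_mem_of_inner_eq_zero
    · apply Submodule.sum_mem
      intro η hη
      rw [Finset.mem_filter] at hη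
      intro z hz
      have h6 := h3 η ((2 * p ^ C) • (⟨z, hz⟩ : Lam B n)) ψ
      rw [hη.2, one_smul] at h6
      exact h6
    · intro w hw
      have h7 : ψ - ∑ η : Chi (2 * p ^ k) (Lam B n) with (∀ z, η.1 ((2 * p ^ C) • z) = 1), P η ψ
          = ∑ η : Chi (2 * p ^ k) (Lam B n) with ¬ (∀ z, η.1 ((2 * p ^ C) • z) = 1), P η ψ := by
        rw [sub_eq_iff_eq_add, add_comm, Finset.sum_filter_add_sum_filter_not, h1]
      rw [h7, sum_inner]
      apply Finset.sum_eq_zero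
      intro η hη
      rw [Finset.mem_filter] at hη
      have h8 := hη.2
      push Not at h8
      obtain ⟨z, hz⟩ := h8
      have h9 := h3 η ((2 * p ^ C) • z) ψ
      have h10 : W.T ((2 * p ^ C) • z.1) w = w := hw z.1 z.2
      have h11 := WB_inner W ((2 * p ^ C) • z.1) (P η ψ) w
      have h12 : W.T ((2 * p ^ C) • z.1) (P η ψ) = η.1 ((2 * p ^ C) • z) • P η ψ := h9
      rw [h10, h12, inner_smul_left] at h11
      have h13 : ((starRingEnd ℂ) (η.1 ((2 * p ^ C) • z)) - 1) * inner ℂ (P η ψ) w = 0 := by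
        rw [sub_mul, h11, one_mul, sub_self]
      rcases mul_eq_zero.1 h13 with h14 | h14
      · exfalso
        apply hz
        have h15 : (starRingEnd ℂ) (η.1 ((2 * p ^ C) • z)) = 1 := by
          rwa [sub_eq_zero] at h14
        have h16 := congrArg (starRingEnd ℂ) h15
        rwa [Complex.conj_conj, map_one] at h16
      · exact h14
  have hlin : ∀ F : Finset (Chi (2 * p ^ k) (Lam B n)),
      (inner ℂ ψ (W.T n (∑ η ∈ F, P η ψ)) : ℂ) =
      ∑ η ∈ F, ((‖P η ψ‖ ^ 2 : ℝ) : ℂ) * η.1 (R1_vec B n) := by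
    intro F
    rw [map_sum, inner_sum]
    exact Finset.sum_congr rfl (fun η _ => hTn η)
  have hA := hlin Finset.univ
  rw [h1] at hA
  rw [hproj, hlin, hA, ← Finset.sum_filter_add_sum_filter_not Finset.univ
    (fun η : Chi (2 * p ^ k) (Lam B n) => ∀ z, η.1 ((2 * p ^ C) • z) = 1), add_sub_cancel_left]
  exact hmain

end

end Pool.Agent.helper86.CM
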