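import Pool.Agent.helper92.CM.R1a
import Pool.Agent.helper92.CM.R0

/-! # CM project (MP_07c750_an), module R2 -/

open scoped BigOperators

namespace Pool.Agent.helper86.CM

noncomputable section

theorem R2_ee_add (x y : ℝ) : ee (x + y) = ee x * ee y := by
  unfold ee
  rw [← Complex.exp_add]
  congr 1
  push_cast
  ring

theorem R2_ee_int (m : ℤ) : ee (m : ℝ) = 1 := by
  unfold ee
  rw [Complex.exp_eq_one_iff]
  exact ⟨m, by push_cast; ring⟩

theorem R2_ee_eq_one {x : ℝ} (h : ee x = 1) : ∃ m : ℤ, x = m := by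
  unfold ee at h
  rw [Complex.exp_eq_one_iff] at h
  obtain ⟨m, hm⟩ := h
  refine ⟨m, ?_⟩
  have h1 : (2 * Real.pi * Complex.I : ℂ) ≠ 0 := by
    simp [Real.pi_ne_zero]
  have h2 : (2 * Real.pi * Complex.I : ℂ) * (x : ℂ) = (2 * Real.pi * Complex.I : ℂ) * (m : ℂ) := by
    rw [hm]; ring
  have h3 := mul_left_cancel₀ h1 h2
  exact_mod_cast h3

theorem R2_ee_neg (x : ℝ) : ee (-x) * ee x = 1 := by
  rw [← R2_ee_add, neg_add_cancel]
  have := R2_ee_int 0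
  simpa using this

/-- Cauchy-Schwarz for square roots of sums -/
theorem R2_CS {ι : Type} (F : Finset ι) (a b : ι → ℝ) (A B : ℝ)
    (ha : ∑ i ∈ F, a i ^ 2 ≤ A) (hb : ∑ i ∈ F, b i ^ 2 ≤ B) :
    ∑ i ∈ F, a i * b i ≤ Real.sqrt A * Real.sqrt B := by
  refine (Real.sum_mul_le_sqrt_mul_sqrt F a b).trans ?_
  exact mul_le_mul (Real.sqrt_le_sqrt ha) (Real.sqrt_le_sqrt hb) (Real.sqrt_nonneg _)
    (Real.sqrt_nonneg _)

variable {L : Type} [AddCommGroup L] [Module.Free ℤ L] [Module.Finite ℤ L]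

/-- the character `s` twisting -/
def R2_tw (om : L →ₗ[ℤ] L →ₗ[ℤ] ℤ) (M Q N : ℕ) (n : L) (hN : N ≠ 0) (hM : N ∣ Q * M)
    (χ : Chi M L) : Chi M L :=
  ⟨{ toFun := fun z => χ.1 z * ee ((Q : ℝ) * (om z n : ℝ) / N)
     map_zero_eq_one' := by
      have := R2_ee_int 0
      simpa using this
     map_add_eq_mul' := fun a b => by
      rw [AddChar.map_add_eq_mul, map_add, LinearMap.add_apply]
      have h1 : (Q : ℝ) * (((om a n + om b n : ℤ)) : ℝ) / N =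
        (Q : ℝ) * (om a n : ℝ) / N + (Q : ℝ) * (om b n : ℝ) / N := by
        push_cast; ring
      rw [h1, R2_ee_add]
      ring }, by
    intro z
    show χ.1 (M • z) * ee ((Q : ℝ) * (om (M • z) n : ℝ) / N) = 1
    obtain ⟨r, hr⟩ := hM
    have hN' : (N : ℝ) ≠ 0 := by exact_mod_cast hN
    have h1 : (Q : ℝ) * (om (M • z) n : ℝ) / N = ((r * om z n : ℤ) : ℝ) := by
      rw [map_nsmul, LinearMap.smul_apply, nsmul_eq_mul]
      push_cast
      have h2 : (Q : ℝ) * M = N * r := by exact_mod_cast hr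
      rw [← mul_assoc, h2]
      field_simp
    rw [χ.2, h1, R2_ee_int, one_mul]⟩

theorem R2_tw_apply (om : L →ₗ[ℤ] L →ₗ[ℤ] ℤ) (M Q N : ℕ) (n : L) (hN : N ≠ 0)
    (hM : N ∣ Q * M) (χ : Chi M L) (z : L) :
    (R2_tw om M Q N n hN hM χ).1 z = χ.1 z * ee ((Q : ℝ) * (om z n : ℝ) / N) := rfl

theorem R2_tw_inj (om : L →ₗ[ℤ] L →ₗ[ℤ] ℤ) (M Q N : ℕ) (n : L) (hN : N ≠ 0)
    (hM : N ∣ Q * M) : Function.Injective (R2_tw om M Q N n hN hM) := by
  intro χ χ' h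
  apply Subtype.ext
  apply DFunLike.ext
  intro z
  have h1 : (R2_tw om M Q N n hN hM χ).1 z = (R2_tw om M Q N n hN hM χ').1 z := by rw [h]
  rw [R2_tw_apply, R2_tw_apply] at h1
  have h2 : ee ((Q : ℝ) * (om z n : ℝ) / N) ≠ 0 := Complex.exp_ne_zero _
  exact mul_right_cancel₀ h2 h1

theorem R2 (p : ℕ) [Fact p.Prime] (hp : p ≠ 2) (om : L →ₗ[ℤ] L →ₗ[ℤ] ℤ) (B : L ≃ₗ[ℤ] L)
    (hom : ∀ x y, om (B x) (B y) = om x y) (hB : Erg B) (hMP : MPr B) (n : L)
    (hiso : ¬ Iso om (Lam B n)) (δ : ℝ) (hδ : 0 < δ) :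
    ∃ k₀ : ℕ, ∀ k, k₀ ≤ k → ∀ (H : Type) [NormedAddCommGroup H] [InnerProductSpace ℂ H]
      [FiniteDimensional ℂ H] (W : Weyl om H (p ^ k)) (V : H ≃ₗᵢ[ℂ] H) (ψ : H) (c : ℂ),
      (∀ m v, W.T m (V v) = V (W.T (B m) v)) → ‖ψ‖ = 1 → V ψ = c • ψ →
      ‖(inner ℂ ψ (W.T n ψ) : ℂ)‖ ≤ δ := by
  classical
  by_cases alt : ∀ z, om z z = 0
  swap
  · exact ⟨0, fun k _ H _ _ _ W => absurd W.alt alt⟩
  have hp1 : 1 < p := (Fact.out : p.Prime).one_lt
  have hp0 : p ≠ 0 := by omega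
  obtain ⟨c₀, hc₀⟩ := AR p hp B hB
  set ε : ℝ := (δ / 2) ^ 2 with hε
  have hε0 : 0 < ε := by positivity
  obtain ⟨C', hC'⟩ := FX p B hB hMP n c₀ ε hε0
  have hm : ∃ m ∈ Lam B n, om m n ≠ 0 := by
    by_contra h
    push Not at h
    exact hiso (Lam_iso alt B hom n h)
  obtain ⟨m, hmΛ, hmn⟩ := hm
  set T : ℕ := 2 * (om m n).natAbs + 1 with hT
  refine ⟨2 * (C' + T) + 1, fun k hk => ?_⟩
  obtain ⟨N, hN⟩ : ∃ N : ℕ, N = p ^ k := ⟨_, rfl⟩
  rw [← hN]
  intro H _ _ _ W V ψ c hV hψ hc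
  set i : ℕ := (k + 1) / 2 with hi
  have hi1 : 1 ≤ i := by omega
  have hik : i ≤ k := by omega
  have hik2 : k ≤ 2 * i := by omega
  obtain ⟨e, u, X, hX⟩ := hc₀ i hi1
  set Q : ℕ := 2 * p ^ i with hQ
  set M : ℕ := p ^ (k - i) with hM
  have hN0 : N ≠ 0 := by rw [hN]; positivity
  have hNR : (N : ℝ) ≠ 0 := by exact_mod_cast hN0
  have hQM : Q * M = 2 * N := by
    rw [hQ, hM, hN, mul_assoc, ← pow_add]
    congr 2; omega
  have hNdvd : N ∣ Q * M := ⟨2, by rw [hQM]; ring⟩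
  have hMQ : M ∣ Q := by
    rw [hQ, hM]
    exact Dvd.dvd.mul_left (pow_dvd_pow p (by omega)) 2
  have hQQ : ∃ r : ℕ, Q * Q = 2 * N * r := by
    refine ⟨2 * p ^ (2 * i - k), ?_⟩
    rw [hQ, hN]
    have h1 : p ^ i * p ^ i = p ^ k * p ^ (2 * i - k) := by
      rw [← pow_add, ← pow_add]; congr 1; omega
    calc 2 * p ^ i * (2 * p ^ i) = 4 * (p ^ i * p ^ i) := by ring
      _ = _ := by rw [h1]; ring
  have : NeZero M := ⟨by positivity⟩
  obtain ⟨P, h1, h2, h3, h4, h5⟩ := SP (L := L) M H (fun z => W.T (Q • z))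
    (fun v => by simp only [smul_zero]; exact W.zero v)
    (fun a b v => by
      rw [W.mul, smul_add]
      obtain ⟨r, hr⟩ := hQQ
      have h1 : (om (Q • a) (Q • b) : ℝ) / (2 * (N : ℝ)) = ((r * om a b : ℤ) : ℝ) := by
        rw [map_nsmul, map_nsmul, LinearMap.smul_apply, nsmul_eq_mul, nsmul_eq_mul]
        push_cast
        have h2 : (Q : ℝ) * Q = 2 * N * r := by exact_mod_cast hr
        rw [← mul_assoc, h2]
        field_simp
      rw [h1, R2_ee_int, one_smul])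
    (fun a v => W.norm _ v)
    (fun a v => by
      rw [smul_smul, hQM]
      exact W.per _ v)
  have S : R0_SP M (fun z : L => W.T (Q • z)) P := ⟨h1, h2, h3, h4, h5⟩
  -- invariance of the weights
  have hinv : ∀ χ χ' : Chi M L, (∀ z, χ'.1 z = χ.1 (B z)) → ‖P χ' ψ‖ = ‖P χ ψ‖ := by
    intro χ χ' h
    exact R0_inv S V B (fun a v => by rw [hV, map_nsmul]) χ χ' h ψ c hψ hc
  -- powers
  have hVe : ∀ (t : ℕ) m v, W.T m ((V ^ t) v) = (V ^ t) (W.T ((B ^ t) m) v) := by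
    intro t
    induction t with
    | zero => intro m v; simp
    | succ t ih =>
      intro m v
      have h6 : (V ^ (t + 1)) v = (V ^ t) (V v) := by rw [pow_succ]; rfl
      have h7 : (V ^ (t + 1)) (W.T ((B ^ (t + 1)) m) v) = (V ^ t) (V (W.T ((B ^ (t + 1)) m) v)) := by
        rw [pow_succ]; rfl
      have h8 : (B ^ (t + 1)) m = B ((B ^ t) m) := by rw [pow_succ']; rfl
      rw [h6, h7, h8, ih, hV]
  have hVψ : ∀ t : ℕ, (V ^ t) ψ = c ^ t • ψ := by
    intro t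
    induction t with
    | zero => simp
    | succ t ih =>
      have h6 : (V ^ (t + 1)) ψ = (V ^ t) (V ψ) := by rw [pow_succ]; rfl
      rw [h6, hc, map_smul, ih, smul_smul, pow_succ']
  have hcn : ‖c‖ = 1 := by
    have h2 : ‖V ψ‖ = ‖c • ψ‖ := by rw [hc]
    rw [V.norm_map, norm_smul, hψ, mul_one] at h2
    exact h2.symm
  have hχe : ∀ (χ : Chi M L) z, χ.1 z = χ.1 ((B ^ e) z) := by
    intro χ z
    obtain ⟨q, hq⟩ := hMQ
    have h6 : (2 * p ^ i) • X z = M • (q • X z) := by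
      rw [smul_smul, ← hq]
    rw [hX.pow, h6, AddChar.map_add_eq_mul, χ.2, mul_one]
  have hPV : ∀ χ : Chi M L, (V ^ e) (P χ ψ) = c ^ e • P χ ψ := by
    intro χ
    have h6 := R0_equiv S (V ^ e).toLinearIsometry (fun z => (B ^ e) z) (B ^ e).surjective
      (fun a v => by
        show W.T (Q • a) ((V ^ e) v) = (V ^ e) (W.T (Q • (B ^ e) a) v)
        rw [hVe, map_nsmul]) χ χ (hχe χ) ψ
      (fun χ₁ => ⟨χ₁, fun z => hχe χ₁ z⟩)
    have h7 : P χ ((V ^ e) ψ) = (V ^ e) (P χ ψ) := h6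
    rw [← h7, hVψ, map_smul]
  set κ : ℂ := ee ((om n (Q • X n) : ℝ) / (2 * (N : ℝ))) with hκ
  have hb : ∀ χ : Chi M L, (inner ℂ ψ (W.T n (P χ ψ)) : ℂ) ≠ 0 → χ.1 (X n) = κ := by
    intro χ hne
    have h6 : (inner ℂ ((V ^ e) ψ) (W.T n ((V ^ e) (P χ ψ))) : ℂ) =
        inner ℂ ψ (W.T n (P χ ψ)) := by
      rw [hVψ, hPV, map_smul, inner_smul_left, inner_smul_right, ← mul_assoc, map_pow,
        ← mul_pow, ← Complex.normSq_eq_conj_mul_self, Complex.normSq_eq_norm_sq, hcn]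
      simp
    rw [hVe, (V ^ e).inner_map_map, hX.pow] at h6
    have h7 := W.mul n (Q • X n) (P χ ψ)
    have h8 : W.T (Q • X n) (P χ ψ) = χ.1 (X n) • P χ ψ := h3 χ (X n) ψ
    rw [h8, map_smul] at h7
    have h9 := congrArg (fun v => (inner ℂ ψ v : ℂ)) h7
    simp only [inner_smul_right] at h9
    rw [h6] at h9
    exact mul_right_cancel₀ hne h9
  set tw := R2_tw om M Q N n hN0 hNdvd with htw
  have hbn : ∀ χ : Chi M L, ‖(inner ℂ ψ (W.T n (P χ ψ)) : ℂ)‖ ≤ ‖P (tw χ) ψ‖ * ‖P χ ψ‖ := by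
    intro χ
    have h6 : P (tw χ) (W.T n (P χ ψ)) = W.T n (P χ ψ) := by
      apply h4
      intro a
      have h7 := WB_comm W (Nat.one_le_iff_ne_zero.2 hN0) (Q • a) n (P χ ψ)
      have h8 : W.T (Q • a) (P χ ψ) = χ.1 a • P χ ψ := h3 χ a ψ
      rw [h8, (W.T n).map_smul, smul_smul] at h7
      rw [h7, htw, R2_tw_apply, mul_comm]
      congr 3
      rw [map_nsmul, LinearMap.smul_apply, nsmul_eq_mul]
      push_cast
      ring
    rw [← h6, R0_inner S, h6]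
    refine (norm_inner_le_norm _ _).trans ?_
    rw [W.norm]
  -- the weights
  have hFX : ∀ κ₁ : ℂ, ∀ F : Finset (Chi M L),
      (∀ x ∈ F, x.1 (X n) = κ₁ ∧ ∃ m ∈ Lam B n, x.1 (p ^ C' • m) ≠ 1) →
      ∑ x ∈ F, ‖P x ψ‖ ^ 2 ≤ ε := by
    intro κ₁ F hF
    have h6 := hC' i e u X hX (Chi M L) (R1a_perm M B) (fun x => ‖P x ψ‖ ^ 2)
      (fun x => x.1) (k - i) κ₁ (fun x => by positivity)
      (fun x => by rw [hinv x (R1a_perm M B x) (fun z => rfl)])
      (fun x z => rfl) (fun x z => x.2 z) F hF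
    rw [h5, hψ] at h6
    simpa using h6
  -- the three sets
  set a : Chi M L → ℝ := fun χ => ‖P χ ψ‖ with ha
  have ha0 : ∀ χ, 0 ≤ a χ := fun χ => norm_nonneg _
  have hall : ∑ χ, a χ ^ 2 = 1 := by
    rw [ha]; simp only; rw [h5, hψ]; norm_num
  set G : Chi M L → Prop := fun χ => ∃ m ∈ Lam B n, χ.1 (p ^ C' • m) ≠ 1 with hG
  set F1 : Finset (Chi M L) := Finset.univ.filter (fun χ => χ.1 (X n) = κ ∧ G χ) with hF1
  set F3 : Finset (Chi M L) := Finset.univ.filter (fun χ => χ.1 (X n) = κ ∧ ¬ G χ) with hF3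
  set κ' : ℂ := κ * ee ((Q : ℝ) * (om (X n) n : ℝ) / N) with hκ'
  set F2 : Finset (Chi M L) := Finset.univ.filter (fun χ => χ.1 (X n) = κ' ∧ G χ) with hF2
  have hw1 : ∑ χ ∈ F1, a χ ^ 2 ≤ ε := hFX κ F1 (fun x hx => (Finset.mem_filter.1 hx).2)
  have hw2 : ∑ χ ∈ F2, a χ ^ 2 ≤ ε := hFX κ' F2 (fun x hx => (Finset.mem_filter.1 hx).2)
  have htwinj : Function.Injective tw := R2_tw_inj om M Q N n hN0 hNdvd
  have hw4 : ∑ χ ∈ F1, a (tw χ) ^ 2 ≤ 1 := by
    rw [← hall, ← Finset.sum_image (f := fun χ => a χ ^ 2) (fun x _ y _ h => htwinj h)]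
    exact Finset.sum_le_sum_of_subset_of_nonneg (Finset.subset_univ _)
      (fun x _ _ => by positivity)
  have hw5 : ∑ χ ∈ F3, a χ ^ 2 ≤ 1 := by
    rw [← hall]
    exact Finset.sum_le_sum_of_subset_of_nonneg (Finset.subset_univ _)
      (fun x _ _ => by positivity)
  have hkey : ∀ χ ∈ F3, tw χ ∈ F2 := by
    intro χ hχ
    rw [hF3, Finset.mem_filter] at hχ
    obtain ⟨-, hχ1, hχ2⟩ := hχ
    rw [hF2, Finset.mem_filter]
    refine ⟨Finset.mem_univ _, ?_, m, hmΛ, ?_⟩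
    · rw [htw, R2_tw_apply, hχ1]
    · intro h6
      rw [htw, R2_tw_apply] at h6
      have h7 : χ.1 (p ^ C' • m) = 1 := by
        by_contra h8
        exact hχ2 ⟨m, hmΛ, h8⟩
      rw [h7, one_mul] at h6
      obtain ⟨t, ht⟩ := R2_ee_eq_one h6
      have h9 : (Q : ℤ) * (p ^ C' * om m n) = t * N := by
        have h10 : (om (p ^ C' • m) n : ℝ) = (p : ℝ) ^ C' * (om m n : ℝ) := by
          rw [map_nsmul, LinearMap.smul_apply, nsmul_eq_mul]
          push_cast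
          ring
        rw [h10, div_eq_iff hNR] at ht
        exact_mod_cast ht
      set r : ℕ := k - i - C' with hr
      have h11 : N = p ^ i * p ^ C' * p ^ r := by
        rw [hN, ← pow_add, ← pow_add]
        congr 1; omega
      have h12 : 2 * om m n = t * (p : ℤ) ^ r := by
        have h13 : ((p : ℤ) ^ i * (p : ℤ) ^ C') ≠ 0 := by positivity
        apply mul_left_cancel₀ h13
        rw [h11, hQ] at h9
        push_cast at h9
        linear_combination h9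
      have h14 : T < p ^ r := by
        calc T < p ^ T := Nat.lt_pow_self hp1
          _ ≤ p ^ r := Nat.pow_le_pow_right (by omega) (by omega)
      have h15 : (2 * om m n).natAbs < p ^ r := by
        have h18 : (2 * om m n).natAbs = 2 * (om m n).natAbs := by
          rw [Int.natAbs_mul]; rfl
        omega
      have h16 : p ^ r ∣ (2 * om m n).natAbs := by
        rw [h12, Int.natAbs_mul, Int.natAbs_pow, Int.natAbs_natCast]
        exact Dvd.intro_left _ rfl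
      have h17 := Nat.eq_zero_of_dvd_of_lt h16 h15
      rw [Int.natAbs_eq_zero] at h17
      apply hmn
      omega
  have hw3 : ∑ χ ∈ F3, a (tw χ) ^ 2 ≤ ε := by
    refine le_trans ?_ hw2
    rw [← Finset.sum_image (f := fun χ => a χ ^ 2) (fun x _ y _ h => htwinj h)]
    apply Finset.sum_le_sum_of_subset_of_nonneg
    · intro χ' hχ'
      rw [Finset.mem_image] at hχ'
      obtain ⟨χ, hχ, rfl⟩ := hχ'
      exact hkey χ hχ
    · intro x _ _
      positivity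
  have hsq : Real.sqrt ε = δ / 2 := by
    rw [hε, Real.sqrt_sq (by positivity)]
  have hA : (inner ℂ ψ (W.T n ψ) : ℂ) = ∑ χ, inner ℂ ψ (W.T n (P χ ψ)) := by
    rw [← inner_sum, ← map_sum, h1]
  have hB1 : ∑ χ, (inner ℂ ψ (W.T n (P χ ψ)) : ℂ) =
      ∑ χ with χ.1 (X n) = κ, inner ℂ ψ (W.T n (P χ ψ)) := by
    symm
    apply Finset.sum_filter_of_ne
    intro χ _ h
    exact hb χ h
  have hC1 : ∑ χ with χ.1 (X n) = κ, a (tw χ) * a χ =
      ∑ χ ∈ F1, a (tw χ) * a χ + ∑ χ ∈ F3, a (tw χ) * a χ := by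
    rw [← Finset.sum_filter_add_sum_filter_not (Finset.univ.filter (fun χ : Chi M L =>
      χ.1 (X n) = κ)) G, Finset.filter_filter, Finset.filter_filter]
  have hD1 := R2_CS F1 (fun χ => a (tw χ)) a 1 ε hw4 hw1
  have hD3 := R2_CS F3 (fun χ => a (tw χ)) a ε 1 hw3 hw5
  rw [hsq, Real.sqrt_one] at hD1 hD3
  rw [hA, hB1]
  refine (norm_sum_le _ _).trans ?_
  refine (Finset.sum_le_sum fun χ _ => hbn χ).trans ?_
  change ∑ χ with χ.1 (X n) = κ, a (tw χ) * a χ ≤ δ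
  rw [hC1]
  linarith

end

end Pool.Agent.helper86.CM
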