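import Pool.Agent.helper86.CM.Defs2
import Pool.Agent.helper35.CM.LAT
import Pool.Agent.helper35.CM.AR
import Pool.Agent.helper35.CM.FX
import Pool.Agent.helper45.CM.SP
import Pool.Agent.helper58.CM.WBa

/-! # CM project (MP_07c750_an), module R1a -/

open scoped BigOperators

namespace Pool.Agent.helper86.CM

noncomputable section

variable {L : Type} [AddCommGroup L] [Module.Free ℤ L] [Module.Finite ℤ L]

/-- composition of a character with `B` -/
def R1a_comp (M : ℕ) (B : L ≃ₗ[ℤ] L) (η : Chi M L) : Chi M L :=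
  ⟨{ toFun := fun z => η.1 (B z)
     map_zero_eq_one' := by rw [map_zero, AddChar.map_zero_eq_one]
     map_add_eq_mul' := fun a b => by rw [map_add, AddChar.map_add_eq_mul] }, by
    intro z
    show η.1 (B (M • z)) = 1
    rw [map_nsmul]
    exact η.2 _⟩

theorem R1a_comp_apply (M : ℕ) (B : L ≃ₗ[ℤ] L) (η : Chi M L) (z : L) :
    (R1a_comp M B η).1 z = η.1 (B z) := rfl

/-- the permutation `η ↦ η ∘ B` -/
def R1a_perm (M : ℕ) (B : L ≃ₗ[ℤ] L) : Equiv.Perm (Chi M L) where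
  toFun := R1a_comp M B
  invFun := R1a_comp M B.symm
  left_inv η := by
    apply Subtype.ext
    apply DFunLike.ext
    intro z
    show η.1 (B (B.symm z)) = η.1 z
    rw [LinearEquiv.apply_symm_apply]
  right_inv η := by
    apply Subtype.ext
    apply DFunLike.ext
    intro z
    show η.1 (B.symm (B z)) = η.1 z
    rw [LinearEquiv.symm_apply_apply]

theorem R1a_perm_apply (M : ℕ) (B : L ≃ₗ[ℤ] L) (η : Chi M L) (z : L) :
    (R1a_perm M B η).1 z = η.1 (B z) := rfl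

theorem R1a_perm_pow (M : ℕ) (B : L ≃ₗ[ℤ] L) (e : ℕ) (η : Chi M L) (z : L) :
    ((R1a_perm M B ^ e) η).1 z = η.1 ((B ^ e) z) := by
  induction e generalizing z with
  | zero => simp
  | succ e ih =>
    rw [pow_succ', Equiv.Perm.mul_apply, R1a_perm_apply, ih, pow_succ]
    rfl

theorem R1a_norm (M : ℕ) (hM : M ≠ 0) (η : Chi M L) (z : L) : ‖η.1 z‖ = 1 := by
  have h1 := η.2 z
  rw [AddChar.map_nsmul_eq_pow] at h1
  have h2 : ‖η.1 z‖ ^ M = 1 := by rw [← norm_pow, h1, norm_one]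
  exact (pow_eq_one_iff_of_nonneg (norm_nonneg _) hM).1 h2

open Classical in
/-- one level -/
theorem R1a_level (p : ℕ) [Fact p.Prime] (B : L ≃ₗ[ℤ] L)
    (n : L) (hn : Lam B n = ⊤) (δ : ℝ) (C₁ J I c e u : ℕ) (X : L →ₗ[ℤ] L)
    (hX : ARdata p B c I e u X) (hI : J ≤ 2 * I) (hIJ : I + C₁ + 1 ≤ J)
    (hFX : ∀ (Ξ : Type) [Fintype Ξ] (τ : Equiv.Perm Ξ) (w : Ξ → ℝ) (ch : Ξ → AddChar L ℂ) (K : ℕ)
        (κ : ℂ), (∀ x, 0 ≤ w x) → (∀ x, w (τ x) = w x) →
        (∀ x z, ch (τ x) z = ch x (B z)) → (∀ x z, ch x (p ^ K • z) = 1) →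
        ∀ F : Finset Ξ, (∀ x ∈ F, ch x (X n) = κ ∧ ∃ m ∈ Lam B n, ch x (p ^ C₁ • m) ≠ 1) →
          ∑ x ∈ F, w x ≤ δ * ∑ x, w x)
    (k : ℕ) (σ : Chi (2 * p ^ k) L → ℝ)
    (hσ : ∀ η, 0 ≤ σ η)
    (hinv : ∀ η η' : Chi (2 * p ^ k) L, (∀ z, η'.1 z = η.1 (B z)) → σ η' = σ η) :
    ‖∑ η with ((∀ z, η.1 ((2 * p ^ J) • z) = 1) ∧ ¬ (∀ z, η.1 ((2 * p ^ (J - 1)) • z) = 1)),
      (σ η : ℂ) * η.1 n‖ ≤
    δ * ∑ η with ((∀ z, η.1 ((2 * p ^ J) • z) = 1) ∧ ¬ (∀ z, η.1 ((2 * p ^ (J - 1)) • z) = 1)),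
      σ η := by
  set τ := R1a_perm (2 * p ^ k) B with hτ
  have hp0 : p ≠ 0 := (Fact.out : p.Prime).ne_zero
  have hM : 2 * p ^ k ≠ 0 := by positivity
  set lv : Chi (2 * p ^ k) L → Prop := fun η =>
    (∀ z, η.1 ((2 * p ^ J) • z) = 1) ∧ ¬ (∀ z, η.1 ((2 * p ^ (J - 1)) • z) = 1) with hlv
  have htriv : ∀ (j : ℕ) (η : Chi (2 * p ^ k) L), (∀ z, (τ η).1 ((2 * p ^ j) • z) = 1) ↔
      (∀ z, η.1 ((2 * p ^ j) • z) = 1) := by
    intro j η
    constructor
    · intro h z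
      have := h (B.symm z)
      rwa [hτ, R1a_perm_apply, map_nsmul, LinearEquiv.apply_symm_apply] at this
    · intro h z
      rw [hτ, R1a_perm_apply, map_nsmul]
      exact h _
  have hlvτ : ∀ η, lv (τ η) ↔ lv η := by
    intro η
    rw [hlv]
    simp only
    rw [htriv, htriv]
  have hστ : ∀ η, σ (τ η) = σ η := fun η => hinv η (τ η) (fun z => rfl)
  have hlvτe : ∀ (e : ℕ) η, lv ((τ ^ e) η) ↔ lv η := by
    intro e
    induction e with
    | zero => intro η; simp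
    | succ e ih => intro η; rw [pow_succ', Equiv.Perm.mul_apply, hlvτ, ih]
  have hστe : ∀ (e : ℕ) η, σ ((τ ^ e) η) = σ η := by
    intro e
    induction e with
    | zero => intro η; simp
    | succ e ih => intro η; rw [pow_succ', Equiv.Perm.mul_apply, hστ, ih]
  -- the character value `c(η)`
  set cc : Chi (2 * p ^ k) L → ℂ := fun η => η.1 ((2 * p ^ I) • X n) with hcc
  have hJI : ∀ η, lv η → ∀ z, η.1 ((2 * p ^ (2 * I)) • z) = 1 := by
    intro η hη z
    have h1 : 2 * p ^ (2 * I) = (2 * p ^ J) * p ^ (2 * I - J) := by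
      rw [mul_assoc, ← pow_add]
      congr 2
      omega
    rw [h1, mul_nsmul']
    exact hη.1 _
  have hcinv : ∀ η, lv η → cc ((τ ^ e) η) = cc η := by
    intro η hη
    rw [hcc]
    simp only
    rw [hτ, R1a_perm_pow, hX.pow, AddChar.map_add_eq_mul, (map_nsmul X (2 * p ^ I) (X n))]
    have h1 : (2 * p ^ I) • (2 * p ^ I) • X (X n) = (2 * p ^ (2 * I)) • ((2 : ℕ) • X (X n)) := by
      rw [smul_smul, smul_smul]
      congr 1
      rw [two_mul I, pow_add]; ring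
    rw [h1, hJI η hη, mul_one]
  have hval : ∀ η, ((τ ^ e) η).1 n = η.1 n * cc η := by
    intro η
    rw [hτ, R1a_perm_pow, hX.pow, AddChar.map_add_eq_mul]
  -- split
  have hsplit : ∑ η with lv η, (σ η : ℂ) * η.1 n =
      ∑ η with (lv η ∧ cc η = 1), (σ η : ℂ) * η.1 n +
      ∑ η with (lv η ∧ cc η ≠ 1), (σ η : ℂ) * η.1 n := by
    rw [← Finset.sum_filter_add_sum_filter_not (Finset.univ.filter lv) (fun η => cc η = 1),
      Finset.filter_filter, Finset.filter_filter]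
  have hzero : ∑ η with (lv η ∧ cc η ≠ 1), (σ η : ℂ) * η.1 n = 0 := by
    set f : Chi (2 * p ^ k) L → ℂ := fun η => (σ η : ℂ) * η.1 n / (1 - cc η) with hf
    have h1 : ∑ η with (lv η ∧ cc η ≠ 1), f η = ∑ η with (lv η ∧ cc η ≠ 1), f ((τ ^ e) η) := by
      symm
      apply Finset.sum_equiv (τ ^ e)
      · intro η
        simp only [Finset.mem_filter, Finset.mem_univ, true_and]
        rw [hlvτe]
        constructor
        · rintro ⟨h1, h2⟩
          exact ⟨h1, by rwa [hcinv η h1]⟩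
        · rintro ⟨h1, h2⟩
          exact ⟨h1, by rwa [hcinv η h1] at h2⟩
      · intro η _
        rfl
    have h2 : ∑ η with (lv η ∧ cc η ≠ 1), (σ η : ℂ) * η.1 n =
        ∑ η with (lv η ∧ cc η ≠ 1), (f η - f ((τ ^ e) η)) := by
      apply Finset.sum_congr rfl
      intro η hη
      simp only [Finset.mem_filter, Finset.mem_univ, true_and] at hη
      rw [hf]
      simp only
      rw [hcinv η hη.1, hστe, hval, ← sub_div]
      have h3 : 1 - cc η ≠ 0 := sub_ne_zero.2 (Ne.symm hη.2)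
      rw [eq_div_iff h3]
      ring
    rw [h2, Finset.sum_sub_distrib, ← h1, sub_self]
  change ‖∑ η with lv η, (σ η : ℂ) * η.1 n‖ ≤ δ * ∑ η with lv η, σ η
  rw [hsplit, hzero, add_zero]
  -- the rest
  set F : Finset (Chi (2 * p ^ k) L) := Finset.univ.filter (fun η => lv η ∧ cc η = 1) with hF
  set w : Chi (2 * p ^ k) L → ℝ := fun η => if lv η then σ η else 0 with hw
  have hchdef : ∀ η : Chi (2 * p ^ k) L, ∃ ch : AddChar L ℂ, ∀ z, ch z = η.1 ((2 * p ^ I) • z) := by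
    intro η
    exact ⟨{ toFun := fun z => η.1 ((2 * p ^ I) • z)
             map_zero_eq_one' := by rw [smul_zero, AddChar.map_zero_eq_one]
             map_add_eq_mul' := fun a b => by rw [smul_add, AddChar.map_add_eq_mul] },
           fun z => rfl⟩
  choose ch hch using hchdef
  have hkey := hFX (Chi (2 * p ^ k) L) τ w ch k 1
    (fun η => by rw [hw]; simp only; split_ifs; exacts [hσ η, le_rfl])
    (fun η => by rw [hw]; simp only [hlvτ, hστ])
    (fun η z => by rw [hch, hch, hτ, R1a_perm_apply, map_nsmul])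
    (fun η z => by
      rw [hch]
      have h1 : (2 * p ^ I) • p ^ k • z = (2 * p ^ k) • (p ^ I • z) := by
        rw [smul_smul, smul_smul]
        congr 1; ring
      rw [h1]
      exact η.2 _)
    F (by
      intro η hη
      rw [hF, Finset.mem_filter] at hη
      obtain ⟨-, hlvη, hcη⟩ := hη
      refine ⟨by rw [hch]; exact hcη, ?_⟩
      rw [hn]
      have h1 : ¬ ∀ z, η.1 ((2 * p ^ (J - 1)) • z) = 1 := hlvη.2
      push Not at h1
      obtain ⟨z, hz⟩ := h1
      refine ⟨z, trivial, ?_⟩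
      rw [hch]
      intro h2
      apply hz
      have h3 : (2 * p ^ (J - 1)) • z = (p ^ (J - 1 - (I + C₁))) • ((2 * p ^ I) • p ^ C₁ • z) := by
        rw [smul_smul, smul_smul]
        congr 1
        have h4 : J - 1 = (J - 1 - (I + C₁)) + I + C₁ := by omega
        conv_lhs => rw [h4, pow_add, pow_add]
        ring
      rw [h3, AddChar.map_nsmul_eq_pow, h2, one_pow])
  have h1 : ∑ η ∈ F, w η = ∑ η ∈ F, σ η := by
    apply Finset.sum_congr rfl
    intro η hη
    rw [hF, Finset.mem_filter] at hη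
    rw [hw]
    simp only
    rw [if_pos hη.2.1]
  have h2 : ∑ η, w η = ∑ η with lv η, σ η := by
    rw [hw, Finset.sum_filter]
  rw [h1, h2] at hkey
  refine le_trans ?_ hkey
  refine (norm_sum_le _ _).trans (Finset.sum_le_sum fun η _ => ?_)
  rw [norm_mul, R1a_norm _ hM, mul_one, Complex.norm_real, Real.norm_of_nonneg (hσ η)]

/-! ### R1a: invariant weights on characters, cancellation at the high levels -/

open Classical in
theorem R1a (p : ℕ) [Fact p.Prime] (hp : p ≠ 2) (B : L ≃ₗ[ℤ] L) (hB : Erg B) (hMP : MPr B)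
    (n : L) (hn : Lam B n = ⊤) (δ : ℝ) (hδ : 0 < δ) :
    ∃ C₀ : ℕ, ∀ C, C₀ ≤ C → ∀ (k : ℕ) (σ : Chi (2 * p ^ k) L → ℝ),
      (∀ η, 0 ≤ σ η) → ∑ η, σ η ≤ 1 →
      (∀ η η' : Chi (2 * p ^ k) L, (∀ z, η'.1 z = η.1 (B z)) → σ η' = σ η) →
      ‖∑ η with ¬ (∀ z, η.1 ((2 * p ^ C) • z) = 1), (σ η : ℂ) * η.1 n‖ ≤ δ := by
  obtain ⟨c, hc⟩ := AR p hp B hB
  obtain ⟨C₁, hC₁⟩ := FX p B hB hMP n c δ hδ
  refine ⟨2 * C₁ + 2, fun C hC k σ hσ hσ1 hinv => ?_⟩
  have hp0 : p ≠ 0 := (Fact.out : p.Prime).ne_zero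
  have hmono : ∀ (j j' : ℕ), j ≤ j' → ∀ η : Chi (2 * p ^ k) L, (∀ z, η.1 ((2 * p ^ j) • z) = 1) →
      ∀ z, η.1 ((2 * p ^ j') • z) = 1 := by
    intro j j' hj η h z
    have h1 : 2 * p ^ j' = (2 * p ^ j) * p ^ (j' - j) := by
      rw [mul_assoc, ← pow_add]
      congr 2
      omega
    rw [h1, mul_nsmul']
    exact h _
  have hstep : ∀ d : ℕ,
      ‖∑ η with ((∀ z, η.1 ((2 * p ^ (C + d)) • z) = 1) ∧ ¬ (∀ z, η.1 ((2 * p ^ C) • z) = 1)),
        (σ η : ℂ) * η.1 n‖ ≤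
      δ * ∑ η with ((∀ z, η.1 ((2 * p ^ (C + d)) • z) = 1) ∧ ¬ (∀ z, η.1 ((2 * p ^ C) • z) = 1)),
        σ η := by
    intro d
    induction d with
    | zero =>
      have h1 : (Finset.univ.filter fun η : Chi (2 * p ^ k) L =>
          ((∀ z, η.1 ((2 * p ^ (C + 0)) • z) = 1) ∧ ¬ (∀ z, η.1 ((2 * p ^ C) • z) = 1))) = ∅ := by
        apply Finset.filter_eq_empty_iff.2
        intro η _
        rw [add_zero]
        tauto
      rw [h1]; simp
    | succ d ih =>
      set I := (C + (d + 1) + 1) / 2 with hI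
      obtain ⟨e, u, X, hX⟩ := hc I (by omega)
      have hlev := R1a_level p B n hn δ C₁ (C + (d + 1)) I c e u X hX (by omega) (by omega)
        (fun Ξ _ => hC₁ I e u X hX Ξ) k σ hσ hinv
      have hsp : (Finset.univ.filter fun η : Chi (2 * p ^ k) L =>
          ((∀ z, η.1 ((2 * p ^ (C + (d + 1))) • z) = 1) ∧ ¬ (∀ z, η.1 ((2 * p ^ C) • z) = 1))) =
          (Finset.univ.filter fun η : Chi (2 * p ^ k) L =>
          ((∀ z, η.1 ((2 * p ^ (C + (d + 1))) • z) = 1) ∧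
            ¬ (∀ z, η.1 ((2 * p ^ (C + (d + 1) - 1)) • z) = 1))) ∪
          (Finset.univ.filter fun η : Chi (2 * p ^ k) L =>
          ((∀ z, η.1 ((2 * p ^ (C + d)) • z) = 1) ∧ ¬ (∀ z, η.1 ((2 * p ^ C) • z) = 1))) := by
        ext η
        simp only [Finset.mem_union, Finset.mem_filter, Finset.mem_univ, true_and]
        have h1 := hmono C (C + d) (by omega) η
        have h2 := hmono (C + d) (C + (d + 1)) (by omega) η
        have h3 : C + (d + 1) - 1 = C + d := by omega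
        rw [h3]
        tauto
      have hdis : Disjoint (Finset.univ.filter fun η : Chi (2 * p ^ k) L =>
          ((∀ z, η.1 ((2 * p ^ (C + (d + 1))) • z) = 1) ∧
            ¬ (∀ z, η.1 ((2 * p ^ (C + (d + 1) - 1)) • z) = 1)))
          (Finset.univ.filter fun η : Chi (2 * p ^ k) L =>
          ((∀ z, η.1 ((2 * p ^ (C + d)) • z) = 1) ∧ ¬ (∀ z, η.1 ((2 * p ^ C) • z) = 1))) := by
        rw [Finset.disjoint_filter]
        intro η _ h1 h2
        have h3 : C + (d + 1) - 1 = C + d := by omega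
        rw [h3] at h1
        exact h1.2 h2.1
      rw [hsp, Finset.sum_union hdis, Finset.sum_union hdis, mul_add]
      exact (norm_add_le _ _).trans (add_le_add hlev ih)
  have hfin : (Finset.univ.filter fun η : Chi (2 * p ^ k) L =>
      ¬ (∀ z, η.1 ((2 * p ^ C) • z) = 1)) =
      (Finset.univ.filter fun η : Chi (2 * p ^ k) L =>
          ((∀ z, η.1 ((2 * p ^ (C + k)) • z) = 1) ∧ ¬ (∀ z, η.1 ((2 * p ^ C) • z) = 1))) := by
    apply Finset.filter_congr
    intro η _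
    have h1 := hmono k (C + k) (by omega) η η.2
    tauto
  rw [hfin]
  refine (hstep k).trans ?_
  calc δ * _ ≤ δ * ∑ η, σ η := by
        apply mul_le_mul_of_nonneg_left _ hδ.le
        exact Finset.sum_le_sum_of_subset_of_nonneg (Finset.filter_subset _ _)
          (fun η _ _ => hσ η)
    _ ≤ δ * 1 := mul_le_mul_of_nonneg_left hσ1 hδ.le
    _ = δ := mul_one δ

end

end Pool.Agent.helper86.CM
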